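import Pool.Agent.X264.ES.Rep

/-!
# Newforms and abelian varieties over a totally real field
-/

set_option autoImplicit false

open Module

namespace Pool.Agent.X264.ES

universe u

/-- The data over one totally real field `F`; `Ω = ℚ̄_ℓ ≅ ℂ`. -/
structure Sys (Ω : Type u) [Field Ω] where
  /-- the absolute Galois group of `F`, the finite places, Frobenius elements, Euler products -/
  G : Type u
  [grp : Group G]
  P : Type u
  frob : P → G
  Λ : Type u
  [mon : CommMonoid Λ]
  /-- the `L`-function of a (potentially semistable) representation -/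
  L : Rep Ω G → Λ
  /-- newforms `f` over `F`, the field `K_f`, the Hecke eigenvalues, the functions `L(f^τ, s)` and the
  representations `ρ_(f,τ)` -/
  Form : Type u
  K : Form → Type u
  [fld : ∀ f, Field (K f)]
  [nf : ∀ f, NumberField (K f)]
  eig : ∀ f, P → K f
  Lf : ∀ f, (K f →+* Ω) → Λ
  gal : ∀ f, (K f →+* Ω) → Rep Ω G
  /-- number fields `F' ⊇ F`, their Galois groups, and abelian varieties over `F'` -/
  Ext : Type u
  sub : Ext → Subgroup G
  AvX : Ext → Type u
  tateX : ∀ F', AvX F' → Rep Ω (sub F')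
  /-- abelian varieties over `F`, and the representations `V_ℓ(A) ⊗ Ω` -/
  Av : Type u
  tate : Av → Rep Ω G
  /-- simple abelian varieties `A` over `F`, the division algebra `End⁰(A)`, its centre, the reduced
  traces of Frobenius, the space `H₁(A(ℂ), ℚ)` with the complex conjugation -/
  Simple : Type u
  toAv : Simple → Av
  dim : Simple → ℕ
  LA : Simple → Λ
  D : Simple → Type u
  [dD : ∀ A, DivisionRing (D A)]
  Z : Simple → Type u
  [fZ : ∀ A, Field (Z A)]
  [nZ : ∀ A, NumberField (Z A)]
  [alg : ∀ A, Algebra (Z A) (D A)]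
  frobZ : ∀ A, P → Z A
  index : Simple → ℕ
  H : Simple → Type u
  [acgH : ∀ A, AddCommGroup (H A)]
  [modH : ∀ A, Module (D A) (H A)]
  [modQ : ∀ A, Module ℚ (H A)]
  conj : ∀ A, H A →ₗ[D A] H A

attribute [instance] Sys.grp Sys.mon Sys.fld Sys.nf Sys.dD Sys.fZ Sys.nZ Sys.alg Sys.acgH Sys.modH
  Sys.modQ

namespace Sys

variable {Ω : Type u} [Field Ω] (S : Sys Ω)

/-- almost all places -/
def Almost (p : S.P → Prop) : Prop := ∃ T : Finset S.P, ∀ v, v ∉ T → p v

/-- the function `v ↦ c v` is, for almost all `v`, the trace of Frobenius on `R` -/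
def HasTraces (R : Rep Ω S.G) (c : S.P → Ω) : Prop := S.Almost fun v => R.tr (S.frob v) = c v

/-- the product of the `L(f^τ, s)` -/
noncomputable def product (f : S.Form) : S.Λ := ∏ᶠ τ : S.K f →+* Ω, S.Lf f τ

/-- The question for `f`: some simple abelian variety `A` over `F` has `L(A, s) = ∏ L(f^τ, s)`. -/
def HasVariety (f : S.Form) : Prop := ∃ A : S.Simple, S.LA A = S.product f

/-- Potential occurrence: for some `τ`, some number field `F' ⊇ F` and some abelian variety `B` over
`F'` there is a nonzero `G_(F')`-equivariant map from `ρ_(f,τ)` to `V_ℓ(B) ⊗ Ω`. -/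
def PotentiallyOccurs (f : S.Form) : Prop :=
  ∃ (τ : S.K f →+* Ω) (F' : S.Ext) (B : S.AvX F'),
    ((S.gal f τ).res (S.sub F')).HasMap (S.tateX F' B)

/-- Abelian varieties over `F` are, up to isogeny, products of simple ones. -/
def HasFactors : Prop :=
  ∀ (A : S.Av) (x : (S.tate A).V), x ≠ 0 → ∃ (B : S.Simple)
    (π : (S.tate A).V →ₗ[Ω] (S.tate (S.toAv B)).V),
      (S.tate A).Equivariant (S.tate (S.toAv B)) π ∧ π x ≠ 0

/-- Weil restriction. -/
def HasRestriction : Prop :=
  ∀ (F' : S.Ext) (B : S.AvX F'), ∃ A : S.Av, Rep.IsInduced (S.sub F') (S.tateX F' B) (S.tate A)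

/-- One can take `F' = F`. -/
def HasTrivial : Prop :=
  ∀ (A : S.Av) (R : Rep Ω S.G), R.HasMap (S.tate A) →
    ∃ (F' : S.Ext) (B : S.AvX F'), (R.res (S.sub F')).HasMap (S.tateX F' B)

/-- The representations `W_σ` are the components of `V_ℓ(A) ⊗ Ω = ⊕_σ W_σ^m`. -/
def IsComponents (A : S.Simple) (W : (S.Z A →+* Ω) → Rep Ω S.G) : Prop :=
  (∀ σ, (W σ).Irreducible) ∧ (∀ σ, S.HasTraces (W σ) fun v => σ (S.frobZ A v)) ∧
    (∀ x : (S.tate (S.toAv A)).V, x ≠ 0 → ∃ σ, ∃ π : (S.tate (S.toAv A)).V →ₗ[Ω] (W σ).V,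
      (S.tate (S.toAv A)).Equivariant (W σ) π ∧ π x ≠ 0) ∧
    (∀ σ, 2 * S.dim A = S.index A * (W σ).dim * finrank ℚ (S.Z A)) ∧
    S.LA A = ∏ᶠ σ : S.Z A →+* Ω, S.L (W σ) ^ S.index A

/-- Faltings' theorem for simple abelian varieties: `End⁰(A)` is a central division algebra of
dimension `m²` over its centre, which is generated by the reduced traces of Frobenius, and `V_ℓ(A)`
has components `W_σ` with multiplicity `m`. -/
def HasFaltings : Prop :=
  ∀ A : S.Simple, 0 < S.index A ∧ finrank (S.Z A) (S.D A) = S.index A ^ 2 ∧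
    (∀ T : Finset S.P, Subfield.closure (S.frobZ A '' {v | v ∉ T}) = ⊤) ∧
    ∃ W, S.IsComponents A W

/-- Irreducible representations with the same traces of Frobenius are isomorphic (Chebotarev). -/
def HasChebotarev : Prop :=
  ∀ (R R' : Rep Ω S.G) (c : S.P → Ω), R.Irreducible → R'.Irreducible →
    S.HasTraces R c → S.HasTraces R' c → R.Iso R'

/-- The `L`-function only depends on the isomorphism class. -/
def HasInvariance : Prop := ∀ R R' : Rep Ω S.G, R.Iso R' → S.L R = S.L R'

/-- The representations of the newforms: irreducible of dimension 2, with the traces `τ(a_v)` and the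
`L`-function `L(f^τ, s)`; strong multiplicity one: `K_f` is generated by almost all eigenvalues. -/
def HasForms : Prop :=
  ∀ f : S.Form, (∀ T : Finset S.P, Subfield.closure (S.eig f '' {v | v ∉ T}) = ⊤) ∧
    ∀ τ, (S.gal f τ).Irreducible ∧ (S.gal f τ).dim = 2 ∧
      S.HasTraces (S.gal f τ) (fun v => τ (S.eig f v)) ∧ S.L (S.gal f τ) = S.Lf f τ

/-- `H₁(A(ℂ), ℚ)` for a real place of `F`: dimension `2 dim A`, and a complex conjugation commuting
with `End⁰(A)`, different from `± 1`. -/
def HasRealPlace : Prop :=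
  ∀ A : S.Simple, finrank ℚ (S.H A) = 2 * S.dim A ∧ 0 < S.dim A ∧
    (∀ x, S.conj A (S.conj A x) = x) ∧ (∃ x, S.conj A x ≠ x) ∧ ∃ x, S.conj A x ≠ -x

/-- If `L(A, s) = ∏ L(f^τ, s)` then the `ρ_(f,τ)` occur in `V_ℓ(A)` (Chebotarev, Faltings). -/
def HasConverse : Prop :=
  ∀ (f : S.Form) (A : S.Simple), S.LA A = S.product f →
    ∃ τ, (S.gal f τ).HasMap (S.tate (S.toAv A))

/-- The properties which are used. -/
structure IsKnown : Prop where
  factors : S.HasFactors
  restriction : S.HasRestriction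
  trivial : S.HasTrivial
  faltings : S.HasFaltings
  chebotarev : S.HasChebotarev
  invariance : S.HasInvariance
  forms : S.HasForms
  realPlace : S.HasRealPlace
  converse : S.HasConverse

end Sys

end Pool.Agent.X264.ES
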