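import Pool.Agent.X264.ES.Main

/-!
# Integral models of the statement, and reduction to level one
-/

set_option autoImplicit false

open Module

namespace Pool.Agent.X264.ES

universe u

/-- Further data over one totally real field: for an abelian variety `A` over `F`, its dimension, good
reduction, the ring `End_F(A)` and `L(A, s)`; for a newform, the primes dividing the level and the ring
`O_f` generated by the eigenvalues. -/
structure Models {Ω : Type u} [Field Ω] (S : Sys Ω) where
  dimA : S.Av → ℕ
  good : S.Av → S.P → Prop
  End : S.Av → Type u
  [rE : ∀ A, Ring (End A)]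
  LAv : S.Av → S.Λ
  divides : S.Form → S.P → Prop
  O : S.Form → Type u
  [rO : ∀ f, CommRing (O f)]

attribute [instance] Models.rE Models.rO

namespace Models

variable {Ω : Type u} [Field Ω] {S : Sys Ω} (M : Models S)

/-- `A` is associated to `f`: (i) `dim A = [K_f : ℚ]`, (ii) good reduction outside the level,
(iii) `O_f` embeds into `End_F(A)`, (iv) `L(A, s) = ∏ L(f^τ, s)`. -/
def IsAssociated (f : S.Form) (A : S.Av) : Prop :=
  M.dimA A = finrank ℚ (S.K f) ∧ (∀ v, ¬ M.divides f v → M.good A v) ∧
    (∃ i : M.O f →+* M.End A, Function.Injective i) ∧ M.LAv A = S.product f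

/-- `f` has an associated abelian variety. -/
def HasAssociated (f : S.Form) : Prop := ∃ A, M.IsAssociated f A

/-- A simple abelian variety with the right dimension, endomorphism algebra `K_f` and `L`-function can
be replaced by an isogenous one with (i)-(iv) (change of the lattice, Néron-Ogg-Shafarevich). -/
def HasModels : Prop :=
  ∀ (f : S.Form) (A : S.Simple), S.LA A = S.product f → S.dim A = finrank ℚ (S.K f) →
    Nonempty (S.K f ≃+* S.D A) → M.HasAssociated f

/-- The `ρ_(f,τ)` occur in an abelian variety associated to `f`. -/
def HasOccurrence : Prop :=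
  ∀ (f : S.Form) (A : S.Av), M.IsAssociated f A → ∃ τ, (S.gal f τ).HasMap (S.tate A)

/-- The properties which are used. -/
structure IsKnown : Prop where
  sys : S.IsKnown
  models : M.HasModels
  occurrence : M.HasOccurrence

theorem main {M : Models S} (hM : M.IsKnown) (f : S.Form) :
    M.HasAssociated f ↔ S.PotentiallyOccurs f := by
  constructor
  · rintro ⟨A, hA⟩
    obtain ⟨τ, hτ⟩ := hM.occurrence f A hA
    obtain ⟨F', B, hB⟩ := hM.sys.trivial _ _ hτ
    exact ⟨τ, F', B, hB⟩
  · intro h
    obtain ⟨A, hA, hd, hK⟩ := Sys.exists_of_occurs hM.sys h
    exact hM.models f A hA hd hK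

end Models

/-- All totally real fields. -/
structure Fields (Ω : Type u) [Field Ω] where
  /-- totally real fields, the data over them -/
  Fld : Type u
  sys : Fld → Sys Ω
  /-- the degree is even; the field contains the given totally real field `L₀` -/
  even : Fld → Prop
  above : Fld → Prop
  /-- the condition on the level in the question; level `(1)`; some local component at a finite place
  is a discrete series representation -/
  cond : ∀ F, (sys F).Form → Prop
  one : ∀ F, (sys F).Form → Prop
  disc : ∀ F, (sys F).Form → Prop
  /-- `F' ⊇ F` and `f'` is the base change of `f` -/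
  IsBaseChange : ∀ F, (sys F).Form → ∀ F', (sys F').Form → Prop

namespace Fields

variable {Ω : Type u} [Field Ω] (W : Fields Ω)

/-- Level `(1)` satisfies the condition on the level. -/
def HasOne : Prop := ∀ F f, W.one F f → W.cond F f

/-- Solvable base change: if no local component of `f` at a finite place is in the discrete series then
`f` has a base change of level `(1)` to a totally real field containing `L₀`. -/
def HasBaseChange : Prop :=
  ∀ F f, W.even F → ¬ W.disc F f →
    ∃ F' f', W.even F' ∧ W.above F' ∧ W.one F' f' ∧ W.IsBaseChange F f F' f'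

/-- `ρ_(f')` is the restriction of `ρ_f`: an abelian variety over `F'` in which `ρ_(f')` occurs is one
in which `ρ_f` potentially occurs. -/
def HasDescent : Prop :=
  ∀ F f F' f', W.IsBaseChange F f F' f' →
    (W.sys F').PotentiallyOccurs f' → (W.sys F).PotentiallyOccurs f

/-- Newforms with a discrete series component at a finite place: Shimura curves
(Carayol, Blasius-Rogawski, Zhang). -/
def HasShimuraCurves : Prop :=
  ∀ F f, W.disc F f → (W.sys F).PotentiallyOccurs f

/-- The properties which are used. -/
structure IsKnown : Prop where
  sys : ∀ F, (W.sys F).IsKnown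
  one : W.HasOne
  baseChange : W.HasBaseChange
  descent : W.HasDescent
  shimura : W.HasShimuraCurves

variable {W}

/-- reduction to level one -/
theorem level (hW : W.IsKnown) (Q : ∀ F, (W.sys F).Form → Prop)
    (hQ : ∀ F f, Q F f ↔ (W.sys F).PotentiallyOccurs f) :
    (∀ F f, W.even F → W.cond F f → Q F f) ↔
      ∀ F f, W.even F → W.above F → W.one F f → Q F f := by
  constructor
  · intro h F f he _ ho
    exact h F f he (hW.one F f ho)
  · intro h F f he _
    rw [hQ]
    by_cases hd : W.disc F f
    · exact hW.shimura F f hd
    · obtain ⟨F', f', he', ha', ho', hb⟩ := hW.baseChange F f he hd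
      exact hW.descent F f F' f' hb ((hQ F' f').1 (h F' f' he' ha' ho'))

theorem level_variety (hW : W.IsKnown) :
    (∀ F f, W.even F → W.cond F f → (W.sys F).HasVariety f) ↔
      ∀ F f, W.even F → W.above F → W.one F f → (W.sys F).HasVariety f :=
  level hW _ fun F f => Sys.main (hW.sys F) f

theorem level_associated (hW : W.IsKnown) (M : ∀ F, Models (W.sys F))
    (hM : ∀ F, (M F).IsKnown) :
    (∀ F f, W.even F → W.cond F f → (M F).HasAssociated f) ↔
      ∀ F f, W.even F → W.above F → W.one F f → (M F).HasAssociated f :=
  level hW _ fun F f => Models.main (hM F) f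

end Fields

end Pool.Agent.X264.ES
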