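import Pool.Agent.X264.ES.Defs

/-!
# Abelian varieties attached to newforms
-/

set_option autoImplicit false

open Module

namespace Pool.Agent.X264.ES

universe u

/-- Two embeddings with the same image give an isomorphism. -/
lemma exists_ringEquiv {K Z Ω : Type u} [Field K] [Field Z] [Field Ω] (τ : K →+* Ω) (σ : Z →+* Ω)
    (h : ∀ y, (∃ x, τ x = y) ↔ ∃ z, σ z = y) : ∃ θ : K ≃+* Z, ∀ x, σ (θ x) = τ x := by
  have h1 : ∀ x, ∃ z, σ z = τ x := fun x => (h _).1 ⟨x, rfl⟩
  choose t ht using h1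
  have hinj : Function.Injective t := fun a b hab => τ.injective (by rw [← ht, ← ht, hab])
  have hsur : Function.Surjective t := by
    intro z
    obtain ⟨x, hx⟩ := (h (σ z)).2 ⟨z, rfl⟩
    exact ⟨x, σ.injective (by rw [ht, hx])⟩
  let f : K →+* Z :=
    { toFun := t
      map_one' := σ.injective (by rw [ht, map_one, map_one])
      map_mul' := fun a b => σ.injective (by rw [ht, map_mul, map_mul, ht, ht])
      map_zero' := σ.injective (by rw [ht, map_zero, map_zero])
      map_add' := fun a b => σ.injective (by rw [ht, map_add, map_add, ht, ht]) }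
  exact ⟨RingEquiv.ofBijective f ⟨hinj, hsur⟩, fun x => ht x⟩

/-- generation by the same elements -/
lemma range_eq {K Z Ω P : Type u} [Field K] [Field Z] [Field Ω] (τ : K →+* Ω) (σ : Z →+* Ω)
    (a : P → K) (b : P → Z) (U : Set P) (ha : Subfield.closure (a '' U) = ⊤)
    (hb : Subfield.closure (b '' U) = ⊤) (h : ∀ v ∈ U, τ (a v) = σ (b v)) (y : Ω) :
    (∃ x, τ x = y) ↔ ∃ z, σ z = y := by
  have h1 : (Subfield.closure (a '' U)).map τ = (Subfield.closure (b '' U)).map σ := by
    rw [RingHom.map_field_closure, RingHom.map_field_closure]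
    congr 1
    rw [← Set.image_comp, ← Set.image_comp]
    exact Set.image_congr fun v hv => h v hv
  rw [ha, hb] at h1
  have h2 := Subfield.ext_iff.1 h1 y
  simp only [Subfield.mem_map, Subfield.mem_top, true_and] at h2
  exact h2

/-- A division algebra of index `m` acting on a space of dimension `2 m [Z : ℚ]` together with a
commuting involution `≠ ± 1` has `m = 1`. -/
lemma index_one {Z D H : Type u} [Field Z] [NumberField Z] [DivisionRing D] [Algebra Z D]
    [AddCommGroup H] [Module D H] [Module ℚ H] (m : ℕ) (hm : 0 < m)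
    (hD : finrank Z D = m ^ 2) (hH : finrank ℚ H = 2 * (m * finrank ℚ Z)) (c : H →ₗ[D] H)
    (hc : ∀ x, c (c x) = x) (h1 : ∃ x, c x ≠ x) (h2 : ∃ x, c x ≠ -x) : m = 1 := by
  let _ : Module Z H := Module.compHom H (algebraMap Z D)
  have : IsScalarTower Z D H := ⟨fun a b x => by
    change (a • b) • x = (algebraMap Z D a) • (b • x)
    rw [Algebra.smul_def, mul_smul]⟩
  have e1 : finrank ℚ Z * finrank Z H = finrank ℚ H := Module.finrank_mul_finrank ℚ Z H
  have e2 : finrank Z D * finrank D H = finrank Z H := Module.finrank_mul_finrank Z D H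
  have hz : 0 < finrank ℚ Z := finrank_pos
  have e3 : m * finrank D H = 2 := by
    have : finrank ℚ Z * m * (m * finrank D H) = finrank ℚ Z * m * 2 := by
      calc finrank ℚ Z * m * (m * finrank D H)
          = finrank ℚ Z * (m ^ 2 * finrank D H) := by ring
        _ = finrank ℚ H := by rw [← hD, e2, e1]
        _ = finrank ℚ Z * m * 2 := by rw [hH]; ring
    exact Nat.eq_of_mul_eq_mul_left (Nat.mul_pos hz hm) this
  by_contra hne
  have hk : finrank D H = 1 := by
    have hm2 : 2 ≤ m := by omega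
    have hpos : 0 < finrank D H := by
      rcases Nat.eq_zero_or_pos (finrank D H) with h0 | h0
      · rw [h0] at e3
        omega
      · exact h0
    nlinarith
  obtain ⟨b, hb, hspan⟩ := finrank_eq_one_iff'.1 hk
  obtain ⟨d, hd⟩ := hspan (c b)
  have hdd : d * d = 1 := by
    have h3 := hc b
    rw [← hd, map_smul, ← hd, smul_smul] at h3
    have h4 : (d * d - 1) • b = 0 := by rw [sub_smul, h3, one_smul, sub_self]
    rcases smul_eq_zero.1 h4 with h5 | h5
    · exact sub_eq_zero.1 h5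
    · exact absurd h5 hb
  rcases mul_self_eq_one_iff.1 hdd with h3 | h3
  · obtain ⟨x, hx⟩ := h1
    obtain ⟨e, rfl⟩ := hspan x
    apply hx
    rw [map_smul, ← hd, h3, one_smul]
  · obtain ⟨x, hx⟩ := h2
    obtain ⟨e, rfl⟩ := hspan x
    apply hx
    rw [map_smul, ← hd, h3, neg_smul, one_smul, smul_neg]

namespace Sys

variable {Ω : Type u} [Field Ω] {S : Sys Ω}

/-- potential occurrence gives the simple abelian variety -/
theorem exists_of_occurs (hS : S.IsKnown) {f : S.Form} (hf : S.PotentiallyOccurs f) :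
    ∃ A : S.Simple, S.LA A = S.product f ∧ S.dim A = finrank ℚ (S.K f) ∧
      Nonempty (S.K f ≃+* S.D A) := by
  obtain ⟨τ, F', B, hB⟩ := hf
  obtain ⟨A₀, hA₀⟩ := hS.restriction F' B
  obtain ⟨φ, hφ, x, hx⟩ := Rep.hasMap_of_induced hA₀ hB
  obtain ⟨A, π, hπ, hπx⟩ := hS.factors A₀ _ hx
  obtain ⟨hm, hDm, hgen, W, hirr, htr, hsep, hdim, hL⟩ := hS.faltings A
  obtain ⟨σ, π', hπ', hπx'⟩ := hsep _ hπx
  obtain ⟨hgenf, hforms⟩ := hS.forms f
  obtain ⟨hirrf, hdimf, htrf, -⟩ := hforms τ
  have hmap : (S.gal f τ).HasMap (W σ) := by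
    refine ⟨(π'.comp π).comp φ, fun g y => ?_, x, hπx'⟩
    change π' (π (φ _)) = _
    rw [hφ, hπ, hπ']
    rfl
  have hiso := Rep.schur hirrf (hirr σ) hmap
  -- traces
  obtain ⟨T, hT⟩ := htrf
  obtain ⟨T', hT'⟩ := htr σ
  classical
  have hUU : ∀ v ∈ {v | v ∉ T ∪ T'}, τ (S.eig f v) = σ (S.frobZ A v) := by
    intro v hv
    have hv' : v ∉ T ∪ T' := hv
    rw [Finset.notMem_union] at hv'
    have a1 : (S.gal f τ).tr (S.frob v) = τ (S.eig f v) := hT v hv'.1
    have a2 : (W σ).tr (S.frob v) = σ (S.frobZ A v) := hT' v hv'.2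
    rw [← a1, ← a2]
    exact hiso.tr _
  obtain ⟨θ, hθ⟩ := exists_ringEquiv τ σ (range_eq τ σ (S.eig f) (S.frobZ A) {v | v ∉ T ∪ T'}
    (hgenf _) (hgen _) hUU)
  -- degrees
  have hdeg : finrank ℚ (S.K f) = finrank ℚ (S.Z A) := by
    let e : S.K f ≃ₗ[ℚ] S.Z A := (θ.toAddEquiv).toLinearEquiv (fun q x => by
      exact map_rat_smul θ q x)
    exact e.finrank_eq
  have hW : (W σ).dim = 2 := by rw [← hiso.dim, hdimf]
  have hdA : S.dim A = S.index A * finrank ℚ (S.Z A) := by
    have := hdim σ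
    rw [hW] at this
    nlinarith
  obtain ⟨hH, hpos, hcc, hc1, hc2⟩ := hS.realPlace A
  have hone : S.index A = 1 :=
    index_one (S.index A) hm hDm (by rw [hH, hdA]) (S.conj A) hcc hc1 hc2
  refine ⟨A, ?_, by rw [hdA, hone, one_mul, hdeg], ?_⟩
  · -- the L-function
    rw [hL, hone]
    have hval : ∀ v ∉ T ∪ T', θ (S.eig f v) = S.frobZ A v := by
      intro v hv
      apply σ.injective
      rw [hθ, hUU v hv]
    have hLW : ∀ σ' : S.Z A →+* Ω, S.L (W σ') = S.Lf f (σ'.comp (θ : S.K f →+* S.Z A)) := by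
      intro σ'
      obtain ⟨hirr1, -, htr1, hL1⟩ := hforms (σ'.comp (θ : S.K f →+* S.Z A))
      rw [← hL1]
      refine hS.invariance _ _ (hS.chebotarev _ _ (fun v => σ' (S.frobZ A v)) (hirr σ') hirr1
        (htr σ') ?_)
      obtain ⟨T1, hT1⟩ := htr1
      refine ⟨T1 ∪ (T ∪ T'), fun v hv => ?_⟩
      rw [Finset.notMem_union] at hv
      refine (hT1 v hv.1).trans ?_
      change σ' (θ (S.eig f v)) = _
      rw [hval v hv.2]
    simp only [pow_one, hLW]
    let E : (S.Z A →+* Ω) ≃ (S.K f →+* Ω) :=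
      { toFun := fun s => s.comp (θ : S.K f →+* S.Z A)
        invFun := fun t => t.comp (θ.symm : S.Z A →+* S.K f)
        left_inv := fun s => by ext x; simp
        right_inv := fun t => by ext x; simp }
    exact finprod_comp_equiv E (f := fun t => S.Lf f t)
  · rw [hone, one_pow] at hDm
    have hbij : Function.Bijective (algebraMap (S.Z A) (S.D A)) := by
      refine ⟨(algebraMap (S.Z A) (S.D A)).injective, fun w => ?_⟩
      obtain ⟨c, hc⟩ := (finrank_eq_one_iff_of_nonzero' (1 : S.D A) one_ne_zero).1 hDm w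
      exact ⟨c, by rw [← hc, Algebra.smul_def, mul_one]⟩
    exact ⟨θ.trans (RingEquiv.ofBijective (algebraMap (S.Z A) (S.D A)) hbij)⟩

/-- the equivalence -/
theorem main (hS : S.IsKnown) (f : S.Form) : S.HasVariety f ↔ S.PotentiallyOccurs f := by
  constructor
  · rintro ⟨A, hA⟩
    obtain ⟨τ, hτ⟩ := hS.converse f A hA
    obtain ⟨F', B, hB⟩ := hS.trivial _ _ hτ
    exact ⟨τ, F', B, hB⟩
  · intro h
    obtain ⟨A, hA, -⟩ := exists_of_occurs hS h
    exact ⟨A, hA⟩

end Sys

end Pool.Agent.X264.ES
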