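import Mathlib

/-!
# Representations, restriction, induction
-/

set_option autoImplicit false

open Module

namespace Pool.Agent.X264.ES

universe u

/-- A finite-dimensional representation of `G` over the field `Ω`. -/
structure Rep (Ω : Type u) [Field Ω] (G : Type u) [Group G] where
  V : Type u
  [acg : AddCommGroup V]
  [mod : Module Ω V]
  [fin : FiniteDimensional Ω V]
  ρ : G →* (V →ₗ[Ω] V)

attribute [instance] Rep.acg Rep.mod Rep.fin

namespace Rep

variable {Ω : Type u} [Field Ω] {G : Type u} [Group G]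

/-- the action -/
def act (R : Rep Ω G) (g : G) (x : R.V) : R.V := R.ρ g x

/-- the trace of `g` -/
noncomputable def tr (R : Rep Ω G) (g : G) : Ω := LinearMap.trace Ω R.V (R.ρ g)

/-- the dimension -/
noncomputable def dim (R : Rep Ω G) : ℕ := finrank Ω R.V

/-- `φ` is equivariant -/
def Equivariant (R R' : Rep Ω G) (φ : R.V →ₗ[Ω] R'.V) : Prop :=
  ∀ g x, φ (R.act g x) = R'.act g (φ x)

/-- There is a nonzero equivariant map `R → R'`. -/
def HasMap (R R' : Rep Ω G) : Prop :=
  ∃ φ : R.V →ₗ[Ω] R'.V, R.Equivariant R' φ ∧ ∃ x, φ x ≠ 0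

/-- `R` and `R'` are isomorphic. -/
def Iso (R R' : Rep Ω G) : Prop :=
  ∃ φ : R.V ≃ₗ[Ω] R'.V, R.Equivariant R' φ

/-- `R` is irreducible. -/
def Irreducible (R : Rep Ω G) : Prop :=
  (∃ x : R.V, x ≠ 0) ∧
    ∀ U : Submodule Ω R.V, (∀ g, ∀ x ∈ U, R.act g x ∈ U) → U = ⊥ ∨ U = ⊤

/-- the restriction to a subgroup -/
def res (H : Subgroup G) (R : Rep Ω G) : Rep Ω H := ⟨R.V, R.ρ.comp H.subtype⟩

/-- the functions `f : G → R'` with `f (h x) = h (f x)` for `h` in the subgroup `H` -/
def IsCovariant (H : Subgroup G) (R' : Rep Ω H) (f : G → R'.V) : Prop :=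
  ∀ (h : H) (x : G), f (h * x) = R'.act h (f x)

/-- `ι` is linear -/
def IsLin (H : Subgroup G) (R' : Rep Ω H) (R : Rep Ω G) (ι : R.V → G → R'.V) : Prop :=
  ∀ (a : Ω) (r s : R.V) (x : G), ι (a • r + s) x = a • ι r x + ι s x

/-- `R` is (isomorphic to) the representation of `G` (co)induced by the representation `R'` of the
subgroup `H`: the covariant functions `f : G → R'`, on which `G` acts by right translation. -/
def IsInduced (H : Subgroup G) (R' : Rep Ω H) (R : Rep Ω G) : Prop :=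
  ∃ ι : R.V → G → R'.V, IsLin H R' R ι ∧ Function.Injective ι ∧
    (∀ f, (∃ r, ι r = f) ↔ IsCovariant H R' f) ∧ ∀ g r x, ι (R.act g r) x = ι r (x * g)

lemma act_mul (R : Rep Ω G) (g h : G) (x : R.V) : R.act (g * h) x = R.act g (R.act h x) := by
  simp [act]

lemma act_one (R : Rep Ω G) (x : R.V) : R.act 1 x = x := by
  simp [act]

/-- Frobenius reciprocity -/
theorem hasMap_of_induced {H : Subgroup G} {R' : Rep Ω H} {R W : Rep Ω G}
    (h : IsInduced H R' R) (hm : (res H W).HasMap R') : W.HasMap R := by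
  obtain ⟨ι₀, hlin, hinj, hran, hact⟩ := h
  have h0 : ι₀ 0 = 0 := by
    funext x
    have h1 := hlin 0 0 0 x
    simp only [zero_smul, zero_add] at h1
    have h2 := hlin 1 0 0 x
    rw [one_smul, one_smul, zero_add] at h2
    change ι₀ 0 x = 0
    have h3 : ι₀ 0 x + ι₀ 0 x = ι₀ 0 x + 0 := by rw [add_zero]; exact h2.symm
    exact add_left_cancel h3
  let ι : R.V →ₗ[Ω] (G → R'.V) :=
    { toFun := ι₀
      map_add' := fun r s => by
        funext x
        have h1 := hlin 1 r s x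
        rw [one_smul, one_smul] at h1
        exact h1
      map_smul' := fun a r => by
        funext x
        have h1 := hlin a r 0 x
        rw [add_zero, h0] at h1
        change ι₀ (a • r) x = a • ι₀ r x
        rw [h1]
        exact add_zero _ }
  replace hinj : Function.Injective ι := hinj
  replace hran : ∀ f, (∃ r, ι r = f) ↔ IsCovariant H R' f := hran
  replace hact : ∀ g r x, ι (R.act g r) x = ι r (x * g) := hact
  obtain ⟨φ, hφ, w, hw⟩ := hm
  let φ' : W.V →ₗ[Ω] R'.V := φ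
  let Ψ : W.V →ₗ[Ω] (G → R'.V) := LinearMap.pi fun x => φ'.comp (W.ρ x)
  have hΨ : ∀ y, ∃ r, ι r = Ψ y := by
    intro y
    rw [hran]
    intro h x
    change φ (W.act (h * x) y) = R'.act h (φ (W.act x y))
    rw [W.act_mul]
    exact hφ h (W.act x y)
  let e := LinearEquiv.ofInjective ι hinj
  let Φ : W.V →ₗ[Ω] R.V := e.symm.toLinearMap.comp (Ψ.codRestrict (LinearMap.range ι) hΨ)
  have hι : ∀ y, ι (Φ y) = Ψ y := by
    intro y
    have h1 : e (Φ y) = (Ψ.codRestrict (LinearMap.range ι) hΨ) y := e.apply_symm_apply _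
    have h2 := congrArg Subtype.val h1
    exact h2
  refine ⟨Φ, fun g y => ?_, w, fun h0 => hw ?_⟩
  · apply hinj
    rw [hι]
    funext x
    rw [hact, hι]
    change φ (W.act x (W.act g y)) = φ (W.act (x * g) y)
    rw [W.act_mul]
  · have h3 := hι w
    rw [h0, map_zero] at h3
    have h4 := congrFun h3 1
    have h5 : φ (W.act 1 w) = φ w := congrArg φ (W.act_one w)
    exact h5.symm.trans (Eq.symm h4)

lemma Iso.symm {R R' : Rep Ω G} (h : R.Iso R') : R'.Iso R := by
  obtain ⟨φ, hφ⟩ := h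
  refine ⟨φ.symm, fun g x => ?_⟩
  apply φ.injective
  have h1 := hφ g (φ.symm x)
  change φ (φ.symm (R'.act g x)) = φ (R.act g (φ.symm x))
  rw [φ.apply_symm_apply]
  refine Eq.trans ?_ h1.symm
  change _ = R'.act g (φ (φ.symm x))
  rw [φ.apply_symm_apply]

lemma Iso.tr {R R' : Rep Ω G} (h : R.Iso R') (g : G) : R.tr g = R'.tr g := by
  obtain ⟨φ, hφ⟩ := h
  unfold Rep.tr
  rw [← LinearMap.trace_conj' (R.ρ g) φ]
  congr 1
  ext x
  rw [LinearEquiv.conj_apply]
  change φ (R.act g (φ.symm x)) = R'.act g x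
  refine (hφ g (φ.symm x)).trans ?_
  change R'.act g (φ (φ.symm x)) = _
  rw [φ.apply_symm_apply]

lemma Iso.dim {R R' : Rep Ω G} (h : R.Iso R') : R.dim = R'.dim := by
  obtain ⟨φ, -⟩ := h
  exact φ.finrank_eq

/-- Schur's lemma -/
theorem schur {R R' : Rep Ω G} (h : R.Irreducible) (h' : R'.Irreducible) (hm : R.HasMap R') :
    R.Iso R' := by
  obtain ⟨φ, hφ, x, hx⟩ := hm
  have hk : LinearMap.ker φ = ⊥ := by
    rcases h.2 (LinearMap.ker φ) (fun g y hy => by
      rw [LinearMap.mem_ker] at hy ⊢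
      rw [hφ, hy]
      simp [act]) with h1 | h1
    · exact h1
    · exact absurd (by rw [← LinearMap.mem_ker, h1]; trivial : φ x = 0) hx
  have hr : LinearMap.range φ = ⊤ := by
    rcases h'.2 (LinearMap.range φ) (fun g y hy => by
      obtain ⟨z, rfl⟩ := hy
      exact ⟨R.act g z, hφ g z⟩) with h1 | h1
    · exfalso
      apply hx
      have : φ x ∈ LinearMap.range φ := ⟨x, rfl⟩
      rw [h1] at this
      exact this
    · exact h1
  exact ⟨LinearEquiv.ofBijective φ ⟨LinearMap.ker_eq_bot.1 hk, LinearMap.range_eq_top.1 hr⟩,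
    fun g y => hφ g y⟩

lemma HasMap.comp_ne {R R' R'' : Rep Ω G} (φ : R.V →ₗ[Ω] R'.V) (ψ : R'.V →ₗ[Ω] R''.V)
    (hφ : R.Equivariant R' φ) (hψ : R'.Equivariant R'' ψ) {x : R.V} (h : ψ (φ x) ≠ 0) :
    R.HasMap R'' :=
  ⟨ψ.comp φ, fun g y => by
    change ψ (φ (R.act g y)) = _
    rw [hφ, hψ]
    rfl, x, h⟩

end Rep

end Pool.Agent.X264.ES
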